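import Pool.Agent.R972.OP.Stm

set_option autoImplicit false

namespace Pool.Agent.R372.OP.ADJ

open Pool.Agent.R972.OP
open MeasureTheory Set Filter Topology

open Classical in
theorem cnt (n N : ℕ) (R : Fin n → Fin n → Prop) (p : Fin n × Fin n) :
    ((cfg N R).filter fun g => g p.2 = g p.1 + 1).card ≤ N ^ (n - 1) := by
  by_cases hp : p.1 = p.2
  · rw [Finset.card_eq_zero.2]
    · exact Nat.zero_le _
    · apply Finset.filter_eq_empty_iff.2
      intro g _ h
      rw [hp] at h
      omega
  · have h1 : ((cfg N R).filter fun g => g p.2 = g p.1 + 1).card ≤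
        (Fintype.piFinset (Function.update (fun _ : Fin n => Finset.range N) p.2 {0})).card := by
      apply Finset.card_le_card_of_injOn (fun g => Function.update g p.2 0)
      · intro g hg
        have hg1 := (Finset.mem_filter.1 hg).1
        unfold cfg at hg1
        rw [Finset.mem_filter] at hg1
        have hg2 := Fintype.mem_piFinset.1 hg1.1
        rw [Finset.mem_coe, Fintype.mem_piFinset]
        intro a
        by_cases ha : a = p.2
        · subst ha; simp
        · show Function.update g p.2 0 a ∈ _
          rw [Function.update_of_ne ha, Function.update_of_ne ha]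
          exact hg2 a
      · intro g hg h hh hgh
        have hg1 := (Finset.mem_filter.1 hg).2
        have hh1 := (Finset.mem_filter.1 hh).2
        have hgh' : Function.update g p.2 0 = Function.update h p.2 0 := hgh
        funext a
        by_cases ha : a = p.2
        · subst ha
          have h2 := congrFun hgh' p.1
          rw [Function.update_of_ne hp, Function.update_of_ne hp] at h2
          rw [hg1, hh1, h2]
        · have h2 := congrFun hgh' a
          rwa [Function.update_of_ne ha, Function.update_of_ne ha] at h2
    refine le_trans h1 (le_of_eq ?_)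
    rw [Fintype.card_piFinset, ← Finset.mul_prod_erase Finset.univ _ (Finset.mem_univ p.2)]
    rw [Function.update_self, Finset.card_singleton, one_mul]
    rw [Finset.prod_congr rfl (g := fun _ => N)]
    · rw [Finset.prod_const, Finset.card_erase_of_mem (Finset.mem_univ _), Finset.card_univ,
        Fintype.card_fin]
    · intro a ha
      rw [Function.update_of_ne (Finset.ne_of_mem_erase ha), Finset.card_range]

open Classical in
theorem tot (n N : ℕ) (R : Fin n → Fin n → Prop) :
    ∑ g ∈ cfg N R, adj g ≤ n ^ 2 * N ^ (n - 1) := by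
  calc ∑ g ∈ cfg N R, adj g
      = ∑ g ∈ cfg N R, ∑ p : Fin n × Fin n, (if g p.2 = g p.1 + 1 then 1 else 0) := by
        apply Finset.sum_congr rfl
        intro g _
        unfold adj
        rw [Finset.card_filter]
    _ = ∑ p : Fin n × Fin n, ∑ g ∈ cfg N R, (if g p.2 = g p.1 + 1 then 1 else 0) :=
        Finset.sum_comm
    _ = ∑ p : Fin n × Fin n, ((cfg N R).filter fun g => g p.2 = g p.1 + 1).card := by
        apply Finset.sum_congr rfl
        intro p _
        rw [Finset.card_filter]
    _ ≤ ∑ _p : Fin n × Fin n, N ^ (n - 1) := Finset.sum_le_sum fun p _ => cnt n N R p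
    _ = n ^ 2 * N ^ (n - 1) := by
        rw [Finset.sum_const, Finset.card_univ, Fintype.card_prod, Fintype.card_fin, smul_eq_mul,
          sq]

theorem main : S_ADJ := by
  intro n R
  refine squeeze_zero' (Eventually.of_forall fun N => ?_) ?_
    (tendsto_const_div_atTop_nhds_zero_nat ((n : ℝ) ^ 2))
  · exact div_nonneg (Finset.sum_nonneg fun g _ => Nat.cast_nonneg _) (by positivity)
  · filter_upwards [eventually_gt_atTop 0] with N hN
    have hN' : (0 : ℝ) < N := Nat.cast_pos.2 hN
    have h1 : (∑ g ∈ cfg N R, (adj g : ℝ)) ≤ (n : ℝ) ^ 2 * (N : ℝ) ^ (n - 1) := by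
      exact_mod_cast tot n N R
    refine le_trans (div_le_div_of_nonneg_right h1 (by positivity)) (le_of_eq ?_)
    rcases Nat.eq_zero_or_pos n with h0 | h0
    · subst h0; simp
    · obtain ⟨k, rfl⟩ : ∃ k, n = k + 1 := ⟨n - 1, by omega⟩
      rw [Nat.add_sub_cancel, pow_succ (N : ℝ) k]
      field_simp

end Pool.Agent.R372.OP.ADJ
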