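import Pool.Agent.R972.OP.Stm

set_option autoImplicit false

namespace Pool.Agent.R372.OP.MOM

open Pool.Agent.R972.OP
open MeasureTheory Set Filter Topology ProbabilityTheory

/-- uniform measure on the unit interval -/
noncomputable def nu : Measure ℝ := (volume : Measure ℝ).restrict (Icc 0 1)

instance : IsProbabilityMeasure nu := ⟨by
  unfold nu
  rw [Measure.restrict_apply_univ, Real.volume_Icc]; simp⟩

theorem rest (n : ℕ) : (volume : Measure (Fin n → ℝ)).restrict (OPp (fun _ _ : Fin n => False))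
    = Measure.pi (fun _ => nu) := by
  have e : OPp (fun _ _ : Fin n => False) = univ.pi fun _ => Icc (0 : ℝ) 1 := by
    ext x
    rw [mem_univ_pi]
    exact ⟨fun h => h.1, fun h => ⟨h, fun _ _ h' => h'.elim⟩⟩
  rw [e, volume_pi, Measure.restrict_pi_pi]
  rfl

theorem m1 : ∫ t, t ∂nu = 1 / 2 := by
  unfold nu
  rw [integral_Icc_eq_integral_Ioc, ← intervalIntegral.integral_of_le zero_le_one, integral_id]
  norm_num

theorem m2 : ∫ t, t ^ 2 ∂nu = 1 / 3 := by
  unfold nu
  rw [integral_Icc_eq_integral_Ioc, ← intervalIntegral.integral_of_le zero_le_one, integral_pow]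
  norm_num

theorem mid : MemLp (fun t : ℝ => t) 2 nu := by
  apply MemLp.of_bound (by fun_prop) 1
  unfold nu
  filter_upwards [ae_restrict_mem measurableSet_Icc] with t ht
  rw [Real.norm_eq_abs, abs_le]
  exact ⟨by linarith [ht.1], ht.2⟩

theorem var1 : Var[fun t : ℝ => t; nu] = 1 / 12 := by
  rw [variance_eq_sub mid]
  have h1 := m1
  have h2 := m2
  simp only [Pi.pow_apply]
  rw [h1, h2]
  norm_num

theorem mean (n : ℕ) : ∫ x : Fin n → ℝ, ∑ i, x i ∂(Measure.pi (fun _ => nu)) = (n : ℝ) / 2 := by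
  rw [integral_finsetSum]
  · have h : ∀ i : Fin n, ∫ x : Fin n → ℝ, x i ∂(Measure.pi (fun _ => nu)) = 1 / 2 := by
      intro i
      rw [integral_comp_eval (μ := fun _ : Fin n => nu) (i := i) (f := fun t => t)
        (by fun_prop)]
      exact m1
    rw [Finset.sum_congr rfl (fun i _ => h i)]
    simp
    ring
  · intro i _
    have h := mid.integrable one_le_two
    exact integrable_comp_eval (μ := fun _ : Fin n => nu) (i := i) h

theorem mem (n : ℕ) : MemLp (∑ i : Fin n, fun x : Fin n → ℝ => x i) 2 (Measure.pi (fun _ => nu)) := by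
  apply memLp_finsetSum'
  intro i _
  exact mid.comp_measurePreserving (measurePreserving_eval (fun _ : Fin n => nu) i)

theorem main : S_MOM := by
  intro n
  rw [rest]
  have e1 := mean n
  refine ⟨e1, ?_⟩
  have h := variance_sum_pi (μ := fun _ : Fin n => nu) (X := fun _ t => t) (fun _ => mid)
  have hv := variance_eq_sub (mem n)
  rw [h] at hv
  have e2 : ∑ i : Fin n, Var[fun t : ℝ => t; nu] = (n : ℝ) / 12 := by
    rw [var1]; simp; ring
  rw [e2] at hv
  have e3 : ∫ x : Fin n → ℝ, (∑ i : Fin n, fun x : Fin n → ℝ => x i) x ∂(Measure.pi (fun _ => nu))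
      = (n : ℝ) / 2 := by
    rw [← e1]
    apply integral_congr_ae
    refine Eventually.of_forall fun x => ?_
    simp
  rw [e3] at hv
  have e4 : ∫ x : Fin n → ℝ, ((∑ i : Fin n, fun x : Fin n → ℝ => x i) ^ 2) x
      ∂(Measure.pi (fun _ => nu)) =
      ∫ x : Fin n → ℝ, (∑ i : Fin n, x i) ^ 2 ∂(Measure.pi (fun _ => nu)) := by
    apply integral_congr_ae
    refine Eventually.of_forall fun x => ?_
    simp
  rw [e4] at hv
  linarith [hv]

end Pool.Agent.R372.OP.MOM
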