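import Pool.Agent.R372.OP.MOM

set_option autoImplicit false

namespace Pool.Agent.R372.OP.SYM

open Pool.Agent.R972.OP
open MeasureTheory Set Filter Topology

variable {n : ℕ}

theorem clK (R : Fin n → Fin n → Prop) : IsClosed (OPp R) := by
  have h : OPp R = (⋂ i, ({x | 0 ≤ x i} ∩ {x | x i ≤ 1})) ∩
      ⋂ i, ⋂ j, ⋂ (_ : R i j), {x | x i ≤ x j} := by
    ext x; simp only [OPp, mem_ofPred_eq, mem_inter_iff, mem_iInter]
  rw [h]
  exact (isClosed_iInter fun i => (isClosed_le continuous_const (continuous_apply i)).inter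
    (isClosed_le (continuous_apply i) continuous_const)).inter (isClosed_iInter fun i =>
      isClosed_iInter fun j => isClosed_iInter fun _ =>
        isClosed_le (continuous_apply i) (continuous_apply j))

theorem cpK (R : Fin n → Fin n → Prop) : IsCompact (OPp R) := by
  refine IsCompact.of_isClosed_subset (isCompact_univ_pi (fun _ : Fin n => isCompact_Icc (a := (0:ℝ))
    (b := 1))) (clK R) ?_
  intro x hx
  rw [mem_univ_pi]
  exact hx.1

theorem perm (p : Equiv.Perm (Fin n)) :
    MeasurePreserving (fun (x : Fin n → ℝ) i => x (p i)) volume volume ∧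
    ∀ H : (Fin n → ℝ) → ℝ, ∫ x : Fin n → ℝ, H (fun i => x (p i)) = ∫ x, H x := by
  have h := volume_measurePreserving_piCongrLeft (fun _ : Fin n => ℝ) p.symm
  have e : (MeasurableEquiv.piCongrLeft (fun _ : Fin n => ℝ) p.symm : (Fin n → ℝ) → (Fin n → ℝ))
      = fun x i => x (p i) := by
    funext x i
    rw [MeasurableEquiv.coe_piCongrLeft]
    have := Equiv.piCongrLeft_apply_apply (P := fun _ : Fin n => ℝ) p.symm x (p i)
    simpa using this
  constructor
  · rwa [e] at h
  · intro H
    have h2 := h.integral_comp' H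
    rw [e] at h2
    exact h2

theorem ties : ∀ᵐ x : Fin n → ℝ, Function.Injective x := by
  have h : ∀ i j : Fin n, i ≠ j → ∀ᵐ x : Fin n → ℝ, x i ≠ x j := by
    intro i j hij
    let S : Submodule ℝ (Fin n → ℝ) := LinearMap.ker
      ((LinearMap.proj i : (Fin n → ℝ) →ₗ[ℝ] ℝ) - LinearMap.proj j)
    have hS : S ≠ ⊤ := by
      intro hS
      have h1 : (Pi.single i 1 : Fin n → ℝ) ∈ S := by rw [hS]; trivial
      rw [LinearMap.mem_ker] at h1
      simp [Pi.single_apply, hij.symm] at h1
    have h0 := Measure.addHaar_submodule (volume : Measure (Fin n → ℝ)) S hS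
    rw [ae_iff]
    refine measure_mono_null ?_ h0
    intro x hx
    simp only [ne_eq, not_not, mem_ofPred_eq] at hx
    show x ∈ S
    rw [LinearMap.mem_ker]
    simp [hx]
  have h2 : ∀ᵐ x : Fin n → ℝ, ∀ i j : Fin n, i ≠ j → x i ≠ x j := by
    rw [ae_all_iff]
    intro i
    rw [ae_all_iff]
    intro j
    by_cases hij : i = j
    · exact Eventually.of_forall fun x h => absurd hij h
    · filter_upwards [h i j hij] with x hx _
      exact hx
  filter_upwards [h2] with x hx i j hij
  by_contra hne
  exact hx i j hne hij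

open Classical in
/-- number of linear extensions -/
noncomputable def Lc (R : Fin n → Fin n → Prop) : ℕ :=
  (Finset.univ.filter fun q : Equiv.Perm (Fin n) => ∀ a b, R a b → q a ≤ q b).card

open Classical in
theorem cntL (R : Fin n → Fin n → Prop) (x : Fin n → ℝ) (hx : Function.Injective x) :
    (Finset.univ.filter fun p : Equiv.Perm (Fin n) => ∀ a b, R a b → x (p a) ≤ x (p b)).card
      = Lc R := by
  unfold Lc
  have hs : StrictMono (x ∘ Tuple.sort x) :=
    (Tuple.monotone_sort x).strictMono_of_injective (hx.comp (Tuple.sort x).injective)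
  have key : ∀ (p : Equiv.Perm (Fin n)) (a b : Fin n), x (p a) ≤ x (p b) ↔
      ((Tuple.sort x)⁻¹ * p) a ≤ ((Tuple.sort x)⁻¹ * p) b := by
    intro p a b
    rw [← hs.le_iff_le]
    simp [Equiv.Perm.mul_apply]
  apply Finset.card_bij (fun p _ => (Tuple.sort x)⁻¹ * p)
  · intro p hp
    rw [Finset.mem_filter] at hp ⊢
    exact ⟨Finset.mem_univ _, fun a b hab => (key p a b).1 (hp.2 a b hab)⟩
  · intro p _ q _ h
    exact mul_left_cancel h
  · intro q hq
    rw [Finset.mem_filter] at hq
    refine ⟨Tuple.sort x * q, ?_, by simp⟩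
    rw [Finset.mem_filter]
    refine ⟨Finset.mem_univ _, fun a b hab => (key _ a b).2 ?_⟩
    simpa using hq.2 a b hab

open Classical in
theorem pt (R : Fin n → Fin n → Prop) (G : (Fin n → ℝ) → ℝ)
    (hG : ∀ (p : Equiv.Perm (Fin n)) (x : Fin n → ℝ), G (fun i => x (p i)) = G x)
    (x : Fin n → ℝ) (hx : Function.Injective x) :
    ∑ p : Equiv.Perm (Fin n), (OPp R).indicator G (fun i => x (p i)) =
      (Lc R : ℝ) * (OPp (fun _ _ : Fin n => False)).indicator G x := by
  by_cases hC : ∀ i, 0 ≤ x i ∧ x i ≤ 1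
  · have hC' : x ∈ OPp (fun _ _ : Fin n => False) := ⟨hC, fun _ _ h => h.elim⟩
    rw [indicator_of_mem hC']
    have h1 : ∀ p : Equiv.Perm (Fin n), (OPp R).indicator G (fun i => x (p i)) =
        if (∀ a b, R a b → x (p a) ≤ x (p b)) then G x else 0 := by
      intro p
      by_cases h : ∀ a b, R a b → x (p a) ≤ x (p b)
      · have hm : (fun i => x (p i)) ∈ OPp R := ⟨fun i => hC (p i), h⟩
        rw [indicator_of_mem hm, if_pos h, hG]
      · have hm : (fun i => x (p i)) ∉ OPp R := fun hm => h hm.2
        rw [indicator_of_notMem hm, if_neg h]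
    rw [Finset.sum_congr rfl (fun p _ => h1 p), ← Finset.sum_filter, Finset.sum_const, cntL R x hx,
      nsmul_eq_mul]
  · have hC' : x ∉ OPp (fun _ _ : Fin n => False) := fun h => hC h.1
    rw [indicator_of_notMem hC', mul_zero]
    apply Finset.sum_eq_zero
    intro p _
    apply indicator_of_notMem
    intro h
    apply hC
    intro i
    have := h.1 (p.symm i)
    simpa using this

theorem E1 (R : Fin n → Fin n → Prop) (G : (Fin n → ℝ) → ℝ) (hc : Continuous G)
    (hG : ∀ (p : Equiv.Perm (Fin n)) (x : Fin n → ℝ), G (fun i => x (p i)) = G x) :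
    (Fintype.card (Equiv.Perm (Fin n)) : ℝ) * ∫ x in OPp R, G x =
      (Lc R : ℝ) * ∫ x in OPp (fun _ _ : Fin n => False), G x := by
  have hint : Integrable ((OPp R).indicator G) := by
    rw [integrable_indicator_iff (clK R).measurableSet]
    exact hc.continuousOn.integrableOn_compact (cpK R)
  have h1 : ∀ p : Equiv.Perm (Fin n),
      Integrable (fun x : Fin n → ℝ => (OPp R).indicator G (fun i => x (p i))) := by
    intro p
    exact ((perm p).1.integrable_comp hint.1).2 hint
  calc (Fintype.card (Equiv.Perm (Fin n)) : ℝ) * ∫ x in OPp R, G x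
      = ∑ _p : Equiv.Perm (Fin n), ∫ x in OPp R, G x := by
        rw [Finset.sum_const, Finset.card_univ, nsmul_eq_mul]
    _ = ∑ p : Equiv.Perm (Fin n), ∫ x : Fin n → ℝ, (OPp R).indicator G (fun i => x (p i)) := by
        apply Finset.sum_congr rfl
        intro p _
        rw [(perm p).2, integral_indicator (clK R).measurableSet]
    _ = ∫ x : Fin n → ℝ, ∑ p : Equiv.Perm (Fin n), (OPp R).indicator G (fun i => x (p i)) := by
        rw [integral_finsetSum _ (fun p _ => h1 p)]
    _ = ∫ x : Fin n → ℝ, (Lc R : ℝ) * (OPp (fun _ _ : Fin n => False)).indicator G x := by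
        apply integral_congr_ae
        filter_upwards [ties] with x hx
        exact pt R G hG x hx
    _ = (Lc R : ℝ) * ∫ x in OPp (fun _ _ : Fin n => False), G x := by
        rw [integral_const_mul, integral_indicator (clK _).measurableSet]

theorem main : S_SYM := by
  intro n R G hc hG
  have e1 := E1 R G hc hG
  have e2 := E1 R (fun _ => 1) continuous_const (fun _ _ => rfl)
  have e3 : ∫ x in OPp (fun _ _ : Fin n => False), (1 : ℝ) = 1 := by
    rw [MOM.rest]; simp
  have e4 : ∫ x in OPp R, (1 : ℝ) = (volume (OPp R)).toReal := by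
    simp [Measure.real]
  rw [e3, e4, mul_one] at e2
  rw [← e2] at e1
  have hpos : (Fintype.card (Equiv.Perm (Fin n)) : ℝ) ≠ 0 := by
    exact_mod_cast Fintype.card_ne_zero
  apply mul_left_cancel₀ hpos
  rw [e1]
  ring

end Pool.Agent.R372.OP.SYM
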