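import Pool.Agent.R972.OP.StmE
import Pool.Agent.R372.OP.SYM

set_option autoImplicit false

namespace Pool.Agent.R372.OP.POIE

open Pool.Agent.R972.OP
open MeasureTheory Set Filter Topology
open Pool.Agent.W695.KH (Eu EV VV)

variable {n : ℕ}

/-- the coordinate change -/
noncomputable def ee (n : ℕ) : (Fin n → ℝ) ≃L[ℝ] Eu (Fin n) :=
  (PiLp.continuousLinearEquiv 2 ℝ (fun _ : Fin n => ℝ)).symm

theorem ee_apply (x : Fin n → ℝ) : ee n x = WithLp.toLp 2 x := rfl

theorem pdE (f : Eu (Fin n) → ℝ) (a : Fin n) (x : Fin n → ℝ) :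
    pd (fun x => f (WithLp.toLp 2 x)) a x =
      fderiv ℝ f (WithLp.toLp 2 x) (EuclideanSpace.single a 1) := by
  unfold pd
  have h : (fun x : Fin n → ℝ => f (WithLp.toLp 2 x)) = f ∘ (ee n) := rfl
  rw [h, ContinuousLinearEquiv.comp_right_fderiv]
  rfl

theorem vfin (h : S_TR) (R : Fin n → Fin n → Prop) : volume (OE R) < ⊤ := by
  rw [(h n R).1]
  exact (SYM.cpK R).measure_lt_top

theorem poie (h1 : S_POI) (h2 : S_TR) : S_POIE := by
  intro n R hvol f hf
  have hR : OE R = OE (fun a b => R a b ∧ a ≠ b) := by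
    ext x
    constructor
    · intro hx
      exact ⟨hx.1, fun i j hij => hx.2 i j hij.1⟩
    · intro hx
      refine ⟨hx.1, fun i j hij => ?_⟩
      by_cases h : i = j
      · rw [h]
      · exact hx.2 i j ⟨hij, h⟩
  rw [hR] at hvol ⊢
  set R' : Fin n → Fin n → Prop := fun a b => R a b ∧ a ≠ b with hR'
  have hV : 0 < (volume (OE R')).toReal := ENNReal.toReal_pos hvol.ne' (vfin h2 R').ne
  have hf' : ContDiff ℝ 1 (fun x : Fin n → ℝ => f (WithLp.toLp 2 x)) := by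
    have h : (fun x : Fin n → ℝ => f (WithLp.toLp 2 x)) = f ∘ (ee n) := rfl
    rw [h]
    exact hf.comp (ee n).contDiff
  have h3 := h1 n R' (fun a ha => ha.2 rfl) _ hf'
  rw [← (h2 n R').1] at h3
  unfold VV EV
  rw [(h2 n R').2, (h2 n R').2, (h2 n R').2]
  have h4 : ∫ x in OPp R', GG (fun x : Fin n → ℝ => f (WithLp.toLp 2 x)) x =
      ∫ x in OPp R', ∑ i, (WithLp.toLp 2 x : Eu (Fin n)) i * (1 - (WithLp.toLp 2 x : Eu (Fin n)) i) *
        fderiv ℝ f (WithLp.toLp 2 x) (EuclideanSpace.single i 1) ^ 2 := by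
    apply integral_congr_ae
    refine Eventually.of_forall fun x => ?_
    show GG _ x = _
    unfold GG
    apply Finset.sum_congr rfl
    intro i _
    rw [pdE]
  rw [h4] at h3
  set V := (volume (OE R')).toReal
  generalize (∫ x in OPp R', f (WithLp.toLp 2 x) ^ 2) = A at *
  generalize (∫ x in OPp R', f (WithLp.toLp 2 x)) = B at *
  generalize (∫ x in OPp R', ∑ i, (WithLp.toLp 2 x : Eu (Fin n)) i *
    (1 - (WithLp.toLp 2 x : Eu (Fin n)) i) *
        fderiv ℝ f (WithLp.toLp 2 x) (EuclideanSpace.single i 1) ^ 2) = D at *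
  have e1 : A / V - (B / V) ^ 2 = (V * A - B ^ 2) / V ^ 2 := by
    field_simp
  have e2 : 1 / 2 * (D / V) = (V * (1 / 2 * D)) / V ^ 2 := by
    field_simp
  rw [e1, e2]
  exact div_le_div_of_nonneg_right h3 (by positivity)

theorem vs (h1 : S_SYM) (h2 : S_MOM) (h3 : S_TR) : S_VS := by
  intro n R hvol
  have hV : (volume (OE R)).toReal ≠ 0 := (ENNReal.toReal_pos hvol.ne' (vfin h3 R).ne).ne'
  have hs : ∀ (p : Equiv.Perm (Fin n)) (x : Fin n → ℝ), ∑ i, x (p i) = ∑ i, x i :=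
    fun p x => Equiv.sum_comp p x
  have c1 : Continuous (fun x : Fin n → ℝ => ∑ i, x i) := by fun_prop
  have e1 := h1 n R (fun x => ∑ i, x i) c1 (fun p x => hs p x)
  have e2 := h1 n R (fun x => (∑ i, x i) ^ 2) (c1.pow 2) (fun p x => by
    show (∑ i, x (p i)) ^ 2 = (∑ i, x i) ^ 2
    rw [hs])
  rw [(h2 n).1, ← (h3 n R).1] at e1
  rw [(h2 n).2, ← (h3 n R).1] at e2
  have f1 : ∫ x in OE R, ∑ i, x i = (volume (OE R)).toReal * ((n : ℝ) / 2) := by
    rw [(h3 n R).2]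
    exact e1
  have f2 : ∫ x in OE R, (∑ i, x i) ^ 2 =
      (volume (OE R)).toReal * ((n : ℝ) / 12 + (n : ℝ) ^ 2 / 4) := by
    rw [(h3 n R).2]
    exact e2
  have g1 : EV (OE R) (fun x => ∑ i, x i) = (n : ℝ) / 2 := by
    unfold EV
    rw [f1, mul_div_cancel_left₀ _ hV]
  refine ⟨g1, ?_⟩
  unfold VV
  rw [g1]
  unfold EV
  rw [f2, mul_div_cancel_left₀ _ hV]
  ring

end Pool.Agent.R372.OP.POIE
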